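import Pool.Agent.Helper20.RL.St1

/-!
# Project RL, module LGE: enlargement of a union of cells
-/

set_option autoImplicit false

open MeasureTheory Set Filter Topology
open scoped ENNReal RealInnerProductSpace

namespace Pool.Agent.Helper71.RL

open Pool.Agent.Helper68.LM (Pl BB Bd Av HL ft fm DQ)
open Pool.Agent.Helper20.RG Pool.Agent.Helper20.RL

/-- floors of two numbers at distance at most `p` differ by at most `p` -/
private theorem floor_near (x y : ℝ) (p : ℕ) (h : |x - y| ≤ p) :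
    ⌊y⌋ - ⌊x⌋ ∈ Finset.Icc (-(p : ℤ)) p := by
  rw [abs_le] at h
  rw [Finset.mem_Icc]
  have h1 : ⌊y⌋ ≤ ⌊x⌋ + (p : ℤ) := by
    have : ⌊y⌋ ≤ ⌊x + ((p : ℤ) : ℝ)⌋ := Int.floor_le_floor (by push_cast; linarith)
    rwa [Int.floor_add_intCast] at this
  have h2 : ⌊x⌋ ≤ ⌊y⌋ + (p : ℤ) := by
    have : ⌊x⌋ ≤ ⌊y + ((p : ℤ) : ℝ)⌋ := Int.floor_le_floor (by push_cast; linarith)
    rwa [Int.floor_add_intCast] at this
  constructor <;> omega

private theorem scale (x y A : ℝ) (p : ℕ) (hA : 0 < A) (h : |x - y| ≤ p * A) :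
    |x / A - y / A| ≤ p := by
  rw [← sub_div, abs_div, abs_of_pos hA, div_le_iff₀ hA]
  exact h

theorem hLGE (hPT : StPT) (hLGR : StLGR) : StLGE := by
  intro s a b p q V hV
  obtain ⟨hpt, -, -, -, -, -, -, -⟩ := hPT
  have hA : (0 : ℝ) < (2 : ℝ) ^ a := by positivity
  have hB : (0 : ℝ) < (2 : ℝ) ^ b := by positivity
  set A : ℝ := (2 : ℝ) ^ a with hAd
  set B : ℝ := (2 : ℝ) ^ b with hBd
  let v : ℤ × ℤ → Pl := fun ij => pt (ij.1 * A) (ij.2 * B + s * (ij.1 * A))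
  let I : Finset (ℤ × ℤ) := Finset.Icc (-(p : ℤ)) p ×ˢ Finset.Icc (-(q : ℤ)) q
  have hsub : {x : Pl | ∃ y ∈ V, |x 0 - y 0| ≤ p * A ∧ |pr s x - pr s y| ≤ q * B} ⊆
      ⋃ ij ∈ I, (fun x : Pl => x + v ij) ⁻¹' V := by
    rintro x ⟨y, hy, h0, h1⟩
    set i : ℤ := ⌊y 0 / A⌋ - ⌊x 0 / A⌋ with hi
    set j : ℤ := ⌊pr s y / B⌋ - ⌊pr s x / B⌋ with hj
    have hi' : i ∈ Finset.Icc (-(p : ℤ)) p := floor_near _ _ p (scale _ _ A p hA h0)
    have hj' : j ∈ Finset.Icc (-(q : ℤ)) q := floor_near _ _ q (scale _ _ B q hB h1)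
    rw [Set.mem_iUnion₂]
    refine ⟨(i, j), Finset.mem_product.2 ⟨hi', hj'⟩, ?_⟩
    show x + v (i, j) ∈ V
    apply hV y hy
    have e0 : (x + v (i, j)) 0 = x 0 + i * A := by
      show x 0 + (pt (i * A) (j * B + s * (i * A))) 0 = _
      rw [(hpt _ _).1]
    have e1 : (x + v (i, j)) 1 = x 1 + (j * B + s * (i * A)) := by
      show x 1 + (pt (i * A) (j * B + s * (i * A))) 1 = _
      rw [(hpt _ _).2]
    have e2 : pr s (x + v (i, j)) = pr s x + j * B := by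
      unfold pr
      rw [e0, e1]
      ring
    refine ⟨?_, ?_⟩
    · show ⌊(x + v (i, j)) 0 / A⌋ = ⌊y 0 / A⌋
      rw [e0, add_div, mul_div_cancel_right₀ _ hA.ne', Int.floor_add_intCast]
      omega
    · show ⌊pr s (x + v (i, j)) / B⌋ = ⌊pr s y / B⌋
      rw [e2, add_div, mul_div_cancel_right₀ _ hB.ne', Int.floor_add_intCast]
      omega
  have hvol : ∀ w : Pl, volume ((fun x : Pl => x + w) ⁻¹' V) = volume V := fun w =>
    measure_preimage_add_right volume w V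
  calc volume {x : Pl | ∃ y ∈ V, |x 0 - y 0| ≤ p * A ∧ |pr s x - pr s y| ≤ q * B}
      ≤ volume (⋃ ij ∈ I, (fun x : Pl => x + v ij) ⁻¹' V) := measure_mono hsub
    _ ≤ ∑ ij ∈ I, volume ((fun x : Pl => x + v ij) ⁻¹' V) := measure_biUnion_finset_le I _
    _ = ∑ _ij ∈ I, volume V := Finset.sum_congr rfl fun ij _ => hvol (v ij)
    _ = ENNReal.ofReal ((2 * p + 1) * (2 * q + 1)) * volume V := by
        rw [Finset.sum_const, nsmul_eq_mul]
        congr 1
        have hc : I.card = (2 * p + 1) * (2 * q + 1) := by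
          show (Finset.Icc (-(p : ℤ)) p ×ˢ Finset.Icc (-(q : ℤ)) q).card = _
          rw [Finset.card_product, Int.card_Icc, Int.card_Icc]
          congr 1 <;> omega
        rw [hc, ← ENNReal.ofReal_natCast]
        push_cast
        rfl

end Pool.Agent.Helper71.RL
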