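import Pool.Agent.Helper20.RL.St1

/-!
# Project RL, module LLM: the ladder
-/

set_option autoImplicit false

open MeasureTheory Set Filter Topology
open scoped ENNReal RealInnerProductSpace

namespace Pool.Agent.Helper71.RL

open Pool.Agent.Helper68.LM (Pl BB Bd Av HL ft fm DQ)
open Pool.Agent.Helper20.RG Pool.Agent.Helper20.RL

private theorem lad_succ' (u b l : ℕ) (hu : 1 ≤ u) (hl : l ≤ 16 * u) :
    lad u (16 * u * b + l + 1) = (om u b l : ℤ) := by
  have hpos : 0 < 16 * u := by omega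
  show ((om u ((16 * u * b + l) / (16 * u)) ((16 * u * b + l) % (16 * u)) : ℕ) : ℤ) = _
  rcases lt_or_eq_of_le hl with h | h
  · rw [Nat.mul_add_div hpos, Nat.div_eq_of_lt h, Nat.add_zero, Nat.mul_add_mod,
      Nat.mod_eq_of_lt h]
  · rw [Nat.mul_add_div hpos, Nat.mul_add_mod, h, Nat.div_self hpos, Nat.mod_self]
    unfold om
    push_cast
    rw [pow_succ]
    ring

private theorem lad_diff (u b l : ℕ) (hu : 1 ≤ u) (hl : l < 16 * u) :
    lad u (16 * u * b + l + 2) - lad u (16 * u * b + l + 1) = 64 * u * 2 ^ b := by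
  have h1 := lad_succ' u b l hu hl.le
  have h2 : lad u (16 * u * b + l + 2) = (om u b (l + 1) : ℤ) := by
    have h := lad_succ' u b (l + 1) hu hl
    rw [← add_assoc] at h
    exact h
  rw [h1, h2]
  unfold om
  push_cast
  ring

private theorem lad_mono (u : ℕ) (hu : 1 ≤ u) : Monotone (lad u) := by
  apply monotone_nat_of_le_succ
  intro t
  cases t with
  | zero =>
    have h : lad u (0 + 1) = (om u 0 0 : ℤ) := by
      have h := lad_succ' u 0 0 hu (Nat.zero_le _)
      rw [Nat.mul_zero, Nat.zero_add] at h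
      exact h
    rw [h]
    show -(u : ℤ) ≤ _
    have : (0 : ℤ) ≤ (om u 0 0 : ℤ) := Int.natCast_nonneg _
    omega
  | succ t =>
    have hpos : 0 < 16 * u := by omega
    have hd := lad_diff u (t / (16 * u)) (t % (16 * u)) hu (Nat.mod_lt _ hpos)
    have ht : 16 * u * (t / (16 * u)) + t % (16 * u) = t := Nat.div_add_mod t (16 * u)
    rw [ht] at hd
    have h0 : (0 : ℤ) ≤ 64 * u * 2 ^ (t / (16 * u)) := by positivity
    show lad u (t + 1) ≤ lad u (t + 2)
    linarith

private theorem thr_facts (u : ℕ) (η : ℝ) (hη : 0 < η) (t : ℕ) (ht : t ≤ Mt u + 1) :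
    η / 2 ≤ thr u η t ∧ thr u η t ≤ η ∧
      (t ≤ Mt u → 0 < thr u η (t + 1) ∧ thr u η (t + 1) ≤ thr u η t ∧
        thr u η (t + 1) / thr u η t ≤ 1 - 1 / (2 * ((Mt u : ℝ) + 2))) := by
  set M : ℝ := (Mt u : ℝ) with hM
  have hM0 : 0 ≤ M := Nat.cast_nonneg _
  have hD : 0 < 2 * (M + 2) := by positivity
  have htR : (t : ℝ) ≤ M + 1 := by
    have : ((t : ℕ) : ℝ) ≤ ((Mt u + 1 : ℕ) : ℝ) := Nat.cast_le.2 ht
    rwa [Nat.cast_add, Nat.cast_one] at this
  have ht0 : (0 : ℝ) ≤ (t : ℝ) := Nat.cast_nonneg _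
  have hthr : ∀ r : ℕ, thr u η r = η * (1 - (r : ℝ) / (2 * (M + 2))) := fun r => rfl
  have hq : (t : ℝ) / (2 * (M + 2)) ≤ 1 / 2 := by
    rw [div_le_div_iff₀ hD two_pos]
    linarith
  have hq0 : 0 ≤ (t : ℝ) / (2 * (M + 2)) := div_nonneg ht0 hD.le
  refine ⟨?_, ?_, fun ht' => ?_⟩
  · rw [hthr]; nlinarith
  · rw [hthr]; nlinarith
  · have htR' : (t : ℝ) ≤ M := Nat.cast_le.2 ht'
    have hdt : 0 < 2 * (M + 2) - t := by linarith
    have hdt1 : 0 < 2 * (M + 2) - (t + 1) := by linarith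
    have e1 : thr u η (t + 1) = η * ((2 * (M + 2) - (t + 1)) / (2 * (M + 2))) := by
      rw [hthr]
      push_cast
      field_simp
    have e0 : thr u η t = η * ((2 * (M + 2) - t) / (2 * (M + 2))) := by
      rw [hthr]
      field_simp
    refine ⟨?_, ?_, ?_⟩
    · rw [e1]; positivity
    · rw [e1, e0]
      apply mul_le_mul_of_nonneg_left _ hη.le
      apply div_le_div_of_nonneg_right _ hD.le
      linarith
    · have e2 : thr u η (t + 1) / thr u η t = 1 - 1 / (2 * (M + 2) - t) := by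
        rw [e1, e0]
        field_simp
        ring
      rw [e2]
      have : 1 / (2 * (M + 2)) ≤ 1 / (2 * (M + 2) - t) :=
        one_div_le_one_div_of_le hdt (by linarith)
      linarith

theorem hLLM : StLLM := by
  intro u hu
  refine ⟨rfl, lad_mono u hu, fun b l hl => lad_succ' u b l hu hl, ?_, ?_, ?_, ?_⟩
  · have h : lad u 1 = (om u 0 0 : ℤ) := by
      have h := lad_succ' u 0 0 hu (Nat.zero_le _)
      rw [Nat.mul_zero, Nat.zero_add] at h
      exact h
    rw [h]
    show (om u 0 0 : ℤ) - -(u : ℤ) ≤ _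
    unfold om
    push_cast
    have hu' : (1 : ℤ) ≤ u := by exact_mod_cast hu
    nlinarith
  · intro b l hl
    exact (lad_diff u b l hu hl).le
  · intro b l i hb hl hi
    refine ⟨16 * u * (b - 1) + (16 * u - i) + 1, ?_, lad_succ' u (b - 1) (16 * u - i) hu
      (Nat.sub_le _ _)⟩
    obtain ⟨c, rfl⟩ : ∃ c, b = c + 1 := ⟨b - 1, by omega⟩
    rw [Nat.add_sub_cancel, Nat.mul_succ]
    omega
  · intro η hη
    refine ⟨?_, fun t ht => thr_facts u η hη t ht⟩
    show η * (1 - ((0 : ℕ) : ℝ) / (2 * ((Mt u : ℝ) + 2))) = η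
    simp

end Pool.Agent.Helper71.RL
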