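import Pool.Agent.Helper20.RL.St2

/-!
# Project RL, module LXR: the ridge theorem at one scale
-/

set_option autoImplicit false

open MeasureTheory Set Filter Topology
open scoped ENNReal RealInnerProductSpace

namespace Pool.Agent.Helper71.RL

open Pool.Agent.Helper68.LM (Pl BB Bd Av HL ft fm DQ)
open Pool.Agent.Helper20.RG Pool.Agent.Helper20.RL

private theorem lxr_cont (i : Fin 2) : Continuous fun x : Pl => x i :=
  (EuclideanSpace.proj (𝕜 := ℝ) i).continuous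

/-- the sets are open -/
private theorem lxr_open (s : ℝ) (w : Pl) (V : Set Pl) (r r' : ℝ) :
    IsOpen {x : Pl | ∃ y ∈ V, |(x - w) 0 - y 0| < r ∧ |pr s (x - w) - pr s y| < r'} := by
  have h : {x : Pl | ∃ y ∈ V, |(x - w) 0 - y 0| < r ∧ |pr s (x - w) - pr s y| < r'} =
      ⋃ y ∈ V, {x : Pl | |(x - w) 0 - y 0| < r ∧ |pr s (x - w) - pr s y| < r'} := by
    ext x
    rw [Set.mem_iUnion₂]
    exact ⟨fun ⟨y, hy, hh⟩ => ⟨y, hy, hh⟩, fun ⟨y, hy, hh⟩ => ⟨y, hy, hh⟩⟩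
  rw [h]
  refine isOpen_biUnion fun y _ => ?_
  have c0 : Continuous fun x : Pl => (x - w) 0 := (lxr_cont 0).comp (continuous_id.sub continuous_const)
  have c1 : Continuous fun x : Pl => (x - w) 1 := (lxr_cont 1).comp (continuous_id.sub continuous_const)
  have cp : Continuous fun x : Pl => pr s (x - w) := by
    unfold pr
    exact c1.sub (continuous_const.mul c0)
  exact (isOpen_lt (c0.sub continuous_const).abs continuous_const).inter
    (isOpen_lt (cp.sub continuous_const).abs continuous_const)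

private theorem lxr_ns (u b : ℕ) (A σ : ℝ) (hA : 0 ≤ A) : 1 ≤ ns u b A σ := by
  unfold ns
  have : 0 ≤ (2 : ℝ) ^ u * (A * ((2 : ℝ) ^ (b + 1) * u) ^ (-(1 / σ))) := by positivity
  linarith

private theorem lxr_M0 (κ : ℝ) (u b : ℕ) (A σ D θ : ℝ) (hκ : 1 ≤ κ) (hA : 0 ≤ A) :
    0 < M0 κ u b A σ D θ := by
  unfold M0
  have h1 := lxr_ns u b A σ hA
  have h2 : 0 ≤ (u : ℝ) * Real.sqrt (D / θ ^ 3) := by positivity
  have h3 : 0 < κ := by linarith
  have h4 : 0 < ns u b A σ := by linarith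
  have h5 : 0 < 1 + (u : ℝ) * Real.sqrt (D / θ ^ 3) := by linarith
  positivity

theorem hLXR (hPT : StPT) (hLER : StLER) (hLLM : StLLM) (hLUF : StLUF) (hLXD : StLXD)
    (hLWR : StLWR) : StLXR := by
  obtain ⟨C₂, hC₂, hW⟩ := hLWR
  refine ⟨1024 * C₂, by linarith, ?_⟩
  intro κ hκ hLCI u b l k A σ s c m F D η m₁ hu hb hl hτ hA hSlo hcm hBM hCtl hD6 hDη hη1 hm1 hmns hmD
  obtain ⟨hpt, -, -, -, -, -, -, -⟩ := hPT
  have hD : 0 < D := lt_of_lt_of_le (by positivity) hD6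
  have hη : 0 < η := by linarith
  set D₀ : ℝ := 43008 * M0 κ u (b - 1) A σ D (η / 2) * D / η with hD₀
  have hM0 := lxr_M0 κ u (b - 1) A σ D (η / 2) hκ hA
  have hD₀p : 0 < D₀ := by positivity
  set τ : ℕ := 16 * u * b + l + 1 with hτd
  have hu1 : 1 ≤ u := by omega
  obtain ⟨-, hmono, -, -, -, hex, hthr⟩ := hLLM u hu1
  have hthr' := (hthr η hη).2
  -- size of the lengths
  have hai : ∀ i < 16 * u, 1024 ≤ om u (b - 1) (16 * u - i) := by
    intro i hi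
    unfold om
    have h1 : 1 ≤ 2 ^ (b - 1) := Nat.one_le_two_pow
    have h2 : 1 ≤ u ^ 2 := Nat.one_le_pow _ _ hu1
    calc 1024 = 1 * (1024 * 1 + 0) := by norm_num
      _ ≤ 2 ^ (b - 1) * (1024 * u ^ 2 + 64 * u * (16 * u - i)) := by
        apply Nat.mul_le_mul h1
        apply Nat.add_le_add (Nat.mul_le_mul_left _ h2) (Nat.zero_le _)
  let Et : ℕ → ℕ → Set Pl := fun i j => {x | ∃ y ∈ CU F (s j) (m j) u η τ k,
    |(x - (2 : ℝ) ^ (k : ℤ) • c j) 0 - y 0| <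
      (2 : ℝ) ^ ((k : ℤ) + (om u (b - 1) (16 * u - i) : ℤ) - 1) ∧
    |pr (s j) (x - (2 : ℝ) ^ (k : ℤ) • c j) - pr (s j) y| < 3 * (2 : ℝ) ^ ((k : ℤ) - (m j : ℤ))}
  let Er : ℕ → ℕ → Set Pl := fun i j => {x | ∃ y ∈ CU F (s j) (m j) u η τ k,
    |(x - (2 : ℝ) ^ (k : ℤ) • c j) 0 - y 0| <
      (2 : ℝ) ^ ((k : ℤ) + (om u (b - 1) (16 * u - i) : ℤ)) ∧
    |pr (s j) (x - (2 : ℝ) ^ (k : ℤ) • c j) - pr (s j) y| < 3 * (2 : ℝ) ^ ((k : ℤ) - (m j : ℤ))}
  set SS : ℝ≥0∞ := ∑ j ∈ Finset.range (2 ^ u), volume (F ∩ UU F (s j) (m j) u η τ k) with hSS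
  -- first hypothesis of LWR
  have H1 : ∀ i < 16 * u, ∀ j < 2 ^ u, IsOpen (Et i j) ∧ MeasurableSet (Er i j) ∧
      ∀ y ∈ Et i j, ∀ lam : ℝ,
      |lam| ≤ 10 * (2 : ℝ) ^ ((k : ℤ) + (om u (b - 1) (16 * u - i) : ℤ) -
        ((2 ^ (b - 1) * (16 * u) : ℕ) : ℤ)) →
      y + lam • E (s j) ∈ Er i j := by
    intro i hi j hj
    refine ⟨lxr_open _ _ _ _ _, (lxr_open _ _ _ _ _).measurableSet, ?_⟩
    rintro x ⟨y, hy, hy0, hy1⟩ lam hlam
    refine ⟨y, hy, ?_, ?_⟩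
    · have e : (x + lam • E (s j) - (2 : ℝ) ^ (k : ℤ) • c j) 0
          = (x - (2 : ℝ) ^ (k : ℤ) • c j) 0 + lam := by
        show x 0 + lam * (pt 1 (s j)) 0 - _ = x 0 - _ + lam
        rw [(hpt 1 (s j)).1]
        ring
      rw [e]
      set a : ℤ := (k : ℤ) + (om u (b - 1) (16 * u - i) : ℤ) with ha
      have h5 : (5 : ℤ) ≤ ((2 ^ (b - 1) * (16 * u) : ℕ) : ℤ) := by
        have h1 : 1 ≤ 2 ^ (b - 1) := Nat.one_le_two_pow
        have : 5 ≤ 2 ^ (b - 1) * (16 * u) := by nlinarith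
        exact_mod_cast this
      have h6 : (2 : ℝ) ^ (a - ((2 ^ (b - 1) * (16 * u) : ℕ) : ℤ)) ≤ (2 : ℝ) ^ (a - 5) :=
        zpow_le_zpow_right₀ (by norm_num) (by omega)
      have h7 : (2 : ℝ) ^ (a - 5) = (2 : ℝ) ^ a / 32 := by
        rw [zpow_sub₀ (by norm_num)]; norm_num
      have h8 : (2 : ℝ) ^ (a - 1) = (2 : ℝ) ^ a / 2 := by
        rw [zpow_sub₀ (by norm_num)]; norm_num
      have h9 : (0 : ℝ) < (2 : ℝ) ^ a := by positivity
      rw [h8] at hy0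
      rw [h7] at h6
      have h10 : |lam| ≤ 10 * ((2 : ℝ) ^ a / 32) := hlam.trans (by linarith)
      calc |(x - (2 : ℝ) ^ (k : ℤ) • c j) 0 + lam - y 0|
          = |((x - (2 : ℝ) ^ (k : ℤ) • c j) 0 - y 0) + lam| := by ring_nf
        _ ≤ |(x - (2 : ℝ) ^ (k : ℤ) • c j) 0 - y 0| + |lam| := abs_add_le _ _
        _ < (2 : ℝ) ^ a := by linarith
    · have e : pr (s j) (x + lam • E (s j) - (2 : ℝ) ^ (k : ℤ) • c j)
          = pr (s j) (x - (2 : ℝ) ^ (k : ℤ) • c j) := by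
        unfold pr
        show x 1 + lam * (pt 1 (s j)) 1 - _ - s j * (x 0 + lam * (pt 1 (s j)) 0 - _)
          = x 1 - _ - s j * (x 0 - _)
        rw [(hpt 1 (s j)).1, (hpt 1 (s j)).2]
        ring
      rw [e]
      exact hy1
  -- second hypothesis
  have H2 : ∀ i < 16 * u, ∀ x : Pl, ∑ j ∈ Finset.range (2 ^ u), volume (Er i j ∩
      Sq x (4 * (2 : ℝ) ^ ((k : ℤ) + (om u (b - 1) (16 * u - i) : ℤ)))) ≤
        ENNReal.ofReal (D₀ * (4 : ℝ) ^ ((k : ℤ) + (om u (b - 1) (16 * u - i) : ℤ))) := by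
    intro i hi x
    exact hLXD κ hκ hLCI u b l i k A σ s c m F D η x hu hb hl hτ hi hA hSlo hcm hBM hCtl hD6 hDη hη1
  -- third hypothesis
  have H3 : ∀ i < 16 * u, ∑ j ∈ Finset.range (2 ^ u), volume (Er i j) ≤
      ENNReal.ofReal (42 / η) * SS := by
    intro i hi
    rw [hSS, Finset.mul_sum]
    refine Finset.sum_le_sum fun j _ => ?_
    obtain ⟨t, ht, hte⟩ := hex b l i (by omega) hl hi
    have hτM : τ ≤ Mt u + 1 := by omega
    have hF := ((hLUF F (s j) (m j) u η τ 0 hu1 hη hτM).1 k).1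
    have hle : (k : ℤ) + (om u (b - 1) (16 * u - i) : ℤ) ≤ (k : ℤ) + lad u τ := by
      rw [← hte]
      have := hmono ht
      linarith
    have hZ : ∀ z ∈ CU F (s j) (m j) u η τ k,
        (k : ℤ) + (om u (b - 1) (16 * u - i) : ℤ) ≤ (fun _ : Pl => (k : ℤ) + lad u τ) z ∧
        Rich F (s j) ((k : ℤ) + (om u (b - 1) (16 * u - i) : ℤ))
          ((fun _ : Pl => (k : ℤ) - (m j : ℤ)) z) (η / 2) z := by
      intro z hz
      refine ⟨hle, ?_⟩
      have h1 := hz.2 t ht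
      rw [hte] at h1
      unfold Rich at h1 ⊢
      refine le_trans (ENNReal.ofReal_le_ofReal ?_) h1
      exact mul_le_mul_of_nonneg_right (hthr' t (by omega)).1 (by positivity)
    have hL := hLER F (s j) (η / 2) (η / 2) (UU F (s j) (m j) u η τ k) (CU F (s j) (m j) u η τ k)
      (fun _ => (k : ℤ) + lad u τ) (fun _ => (k : ℤ) - (m j : ℤ))
      ((k : ℤ) + (om u (b - 1) (16 * u - i) : ℤ)) 1 3 hBM.1 hF (by positivity) (by positivity)
      (fun z hz => hz.1) hZ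
    have h42 : (2 * ((1 : ℕ) : ℝ) + 1) * (2 * ((3 : ℕ) : ℝ) + 1) / (η / 2) = 42 / η := by
      field_simp
      norm_num
    rw [h42] at hL
    refine le_trans ?_ hL
    set W : Set Pl := {x | ∃ z ∈ CU F (s j) (m j) u η τ k,
      |x 0 - z 0| ≤ ((1 : ℕ) : ℝ) * (2 : ℝ) ^ ((k : ℤ) + (om u (b - 1) (16 * u - i) : ℤ)) ∧
      |pr (s j) x - pr (s j) z| ≤ ((3 : ℕ) : ℝ) * (2 : ℝ) ^ ((fun _ : Pl => (k : ℤ) - (m j : ℤ)) z)}
      with hWd
    have hsub : Er i j ⊆ (fun x : Pl => x + -((2 : ℝ) ^ (k : ℤ) • c j)) ⁻¹' W := by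
      rintro x ⟨y, hy, hy0, hy1⟩
      show x + -((2 : ℝ) ^ (k : ℤ) • c j) ∈ W
      rw [← sub_eq_add_neg]
      refine ⟨y, hy, ?_, ?_⟩
      · rw [Nat.cast_one, one_mul]
        exact hy0.le
      · exact_mod_cast hy1.le
    calc volume (Er i j) ≤ volume ((fun x : Pl => x + -((2 : ℝ) ^ (k : ℤ) • c j)) ⁻¹' W) :=
          measure_mono hsub
      _ = volume W := measure_preimage_add_right volume _ W
  -- last hypothesis
  have H4 : ∀ x ∈ {x : Pl | m₁ ≤ ({j : ℕ | j < 2 ^ u ∧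
      Hit (s j) (c j) (m j) u k (CU F (s j) (m j) u η τ k) x}.ncard : ℝ)},
      m₁ ≤ ({j : ℕ | j < 2 ^ u ∧ ∀ i < 16 * u, x ∈ Et i j}.ncard : ℝ) := by
    intro x hx
    refine le_trans hx (Nat.cast_le.2 ?_)
    apply Set.ncard_le_ncard
    · rintro j ⟨hj, y, hy, hy0, hy1⟩
      refine ⟨hj, fun i hi => ⟨y, hy, ?_, ?_⟩⟩
      · refine lt_of_le_of_lt hy0 ?_
        have h1 := hai i hi
        have h2 : (2 : ℝ) ^ ((k : ℤ) - (u : ℤ) + 2) ≤
            (2 : ℝ) ^ ((k : ℤ) + (om u (b - 1) (16 * u - i) : ℤ) - 1) := by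
          apply zpow_le_zpow_right₀ (by norm_num)
          have h3 : (1024 : ℤ) ≤ (om u (b - 1) (16 * u - i) : ℤ) := by exact_mod_cast h1
          omega
        have h3 : (2 : ℝ) ^ ((k : ℤ) - (u : ℤ) + 2) = 4 * (2 : ℝ) ^ ((k : ℤ) - (u : ℤ)) := by
          rw [zpow_add₀ (by norm_num)]; norm_num; ring
        have h4 : (0 : ℝ) < (2 : ℝ) ^ ((k : ℤ) - (u : ℤ)) := by positivity
        rw [h3] at h2
        linarith
      · refine lt_of_le_of_lt hy1 ?_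
        have h4 : (0 : ℝ) < (2 : ℝ) ^ ((k : ℤ) - (m j : ℤ)) := by positivity
        linarith
    · exact (Set.finite_lt_nat (2 ^ u)).subset fun j hj => hj.1
  have key := hW u b (k : ℤ) A σ s Et Er D₀ m₁ (ENNReal.ofReal (42 / η) * SS)
    {x : Pl | m₁ ≤ ({j : ℕ | j < 2 ^ u ∧
      Hit (s j) (c j) (m j) u k (CU F (s j) (m j) u η τ k) x}.ncard : ℝ)}
    hu (by omega) hA hSlo hD₀p H1 H2 H3 hm1 hmns hmD H4
  refine le_trans key (le_of_eq ?_)
  have hns := lxr_ns u b A σ hA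
  have hpos : 0 ≤ (1 / 2 : ℝ) ^ (16 * u) / D₀ +
      16 * u * (C₂ * ns u b A σ * (64 * D₀) / m₁ ^ 3) := by
    have : 0 < m₁ := by linarith
    have : 0 < ns u b A σ := by linarith
    positivity
  rw [← mul_assoc, ← ENNReal.ofReal_mul hpos]
  congr 2
  ring

end Pool.Agent.Helper71.RL
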